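import Pool.Agent.Y511.MC.Dual
import Pool.Agent.Results.MP_9533c6_gt.OrderTwentyOne

set_option autoImplicit false

/-!
# A two-parameter family of groups with the 4-manifold geography of the trivial group

For `r ≥ 2` and odd `n ≥ 3` prime to `r ^ n - 1` (for instance every odd prime `n` which does not
divide `r - 1`, in particular `r = 2` and every odd prime `n`) the metacyclic group
`G(r, n) = ⟨x, y | y x y⁻¹ = x ^ r, y ^ n⟩`, of order `n (r ^ n - 1)`, answers both questions
positively. The group of order 21 of the starting file is `G(2, 3)`.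

The relators are `Pool.Agent.Y511.MC.rels r n`; `HasPresentation`, `IsDeficiency` and
`WeakDuality3` are in `Pool.Agent.H890R2.Geo4`, `betti` and `KnownBounds` in the starting file
`Pool.Agent.Results.MP_9533c6_gt.OrderTwentyOne`.
-/

open CategoryTheory
open Pool.Agent.H890R2.Geo4 (IsDeficiency WeakDuality3 betti_zero)
open Pool.Agent.Results.MP_9533c6_gt.OrderTwentyOne (betti KnownBounds)
open Pool.Agent.Y511.MC

namespace Pool.Agent.Results.MP_9533c6_gt.MetacyclicFamily

universe u

/-- **Main result.** Let `r ≥ 2`, let `n ≥ 3` be odd and prime to `r ^ n - 1`. The group `G` with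
the presentation `⟨x, y | y x y⁻¹ x⁻ʳ, yⁿ⟩` has order `n (r ^ n - 1)` and:

(i) `G` is not the fundamental group of a Poincaré complex of formal dimension three (not even of a
space `X = E/G`, `E` simply connected, with the duality isomorphisms for some orientation
character);

(ii) `G` is not a free product with a nontrivial free group;

(iii) `H₄(G; ℤ) = 0`;

(iv) `def(G) = β₁(G) = β₂(G) = 0`, so the known bounds `|σ| + 2 - 2 β₁ + 2 β₂ ≤ q_G(σ) ≤
|σ| + 2 - 2 def(G)` force `q_G(σ) = 2 + |σ|` for every `σ`.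

The hypotheses hold for every odd prime `n` which does not divide `r - 1`; so there are infinitely
many such groups `G` up to isomorphism, already for `r = 2`. -/
theorem result :
    (∀ r n : ℕ, 2 ≤ r → 3 ≤ n → Odd n → Nat.Coprime n (r ^ n - 1) →
      ∃ (G : Type) (_ : Group G),
        Nonempty (PresentedGroup (Set.range (rels r n)) ≃* G) ∧
        Nat.card G = n * (r ^ n - 1) ∧
        (∀ (X E : Type u) [TopologicalSpace X] [TopologicalSpace E] [SimplyConnectedSpace E]
          [MulAction G E] [ContinuousConstSMul G E] (p : E → X), IsQuotientCoveringMap p G →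
          ¬ WeakDuality3 G E) ∧
        (∀ (α : Type u) [Nonempty α] (H : Type u) [Group H],
          IsEmpty (G ≃* Monoid.Coprod (FreeGroup α) H)) ∧
        Limits.IsZero (groupHomology (Rep.trivial ℤ G ℤ) 4) ∧
        IsDeficiency G 0 ∧ betti G 1 = 0 ∧ betti G 2 = 0 ∧
        ∀ q : ℤ → ℤ, KnownBounds G q → ∀ σ : ℤ, q σ = 2 + |σ|) ∧
    (∀ r n : ℕ, 2 ≤ r → n.Prime → 3 ≤ n → ¬ n ∣ r - 1 → Odd n ∧ Nat.Coprime n (r ^ n - 1)) := by
  constructor
  · intro r n hr hn hodd hc
    let P : Par := ⟨r, n, hr, hn, hodd, hc⟩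
    have hb1 : betti (Gp P) 1 = 0 := betti_zero (Gp P) 1
    have hb2 : betti (Gp P) 2 = 0 := betti_zero (Gp P) 2
    refine ⟨Gp P, inferInstance, ⟨presEquiv P⟩, Gp.card_eq, ?_,
      fun α _ H _ => not_freeProduct (Gp P) α H, H4_Gp P, isDeficiency_Gp P, hb1, hb2, ?_⟩
    · intro X E _ _ _ _ _ p hp
      have hfree : ∀ (g : Gp P) (x : E), g • x = x → g = 1 := by
        intro g x hgx
        obtain ⟨U, hU, h⟩ := hp.disjoint x
        exact h g ⟨x, ⟨x, mem_of_mem_nhds hU, hgx⟩, mem_of_mem_nhds hU⟩
      exact not_weakDuality3 hfree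
    · intro q hq σ
      obtain ⟨h1, h2⟩ := hq σ
      have h3 := h2 0 (isDeficiency_Gp P)
      rw [hb1, hb2] at h1
      simp only [Nat.cast_zero, mul_zero, sub_zero, add_zero] at h1 h3
      linarith
  · intro r n hr hp hn hd
    refine ⟨hp.odd_of_ne_two (by omega), (Nat.Prime.coprime_iff_not_dvd hp).2 fun h => hd ?_⟩
    have : Fact n.Prime := ⟨hp⟩
    have h1 : 1 ≤ r ^ n := Nat.one_le_pow _ _ (by omega)
    have h2 : ((r ^ n - 1 : ℕ) : ZMod n) = 0 := (ZMod.natCast_eq_zero_iff _ _).2 h
    rw [Nat.cast_sub h1] at h2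
    push_cast at h2
    rw [ZMod.pow_card] at h2
    rw [← ZMod.natCast_eq_zero_iff, Nat.cast_sub (by omega)]
    push_cast
    exact h2

end Pool.Agent.Results.MP_9533c6_gt.MetacyclicFamily
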